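import Mathlib
import Pool.Agent.RatDiff.AlphaZero

set_option autoImplicit false

open Filter Topology

namespace Pool.Agent.Results.MP_548f00_an.AlphaZero

/-- The denominator `A + B x_{n+2} + x_{n+1} + D x_n`, the sequence being indexed from `0` instead of
`-2` (in the problem: `A + B x_n + x_{n-1} + D x_{n-2}`). -/
noncomputable def Den (A B D : ℝ) (x : ℕ → ℝ) (n : ℕ) : ℝ :=
  A + B * x (n + 2) + x (n + 1) + D * x n

/-- `x` is a solution of `x_{n+1} = (α + x_{n-1}) / (A + B x_n + x_{n-1} + D x_{n-2})` with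
nonnegative initial values for which every denominator is positive (index shifted by two). -/
structure IsSol (α A B D : ℝ) (x : ℕ → ℝ) : Prop where
  init0 : 0 ≤ x 0
  init1 : 0 ≤ x 1
  init2 : 0 ≤ x 2
  den_pos : ∀ n, 0 < Den A B D x n
  step : ∀ n, x (n + 3) = (α + x (n + 1)) / Den A B D x n

open Pool.Agent.RatDiff.AlphaZero (Sol) in
lemma IsSol.toSol {A B D : ℝ} {x : ℕ → ℝ} (h : IsSol 0 A B D x) : Sol A B D x := by
  have hs : ∀ n, x (n + 3) = x (n + 1) / (A + B * x (n + 2) + x (n + 1) + D * x n) := by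
    intro n; have := h.step n; simpa [Den] using this
  have hd : ∀ n, 0 < A + B * x (n + 2) + x (n + 1) + D * x n := fun n => h.den_pos n
  have h3 : ∀ n, 0 ≤ x n ∧ 0 ≤ x (n + 1) ∧ 0 ≤ x (n + 2) := by
    intro n
    induction n with
    | zero => exact ⟨h.init0, h.init1, h.init2⟩
    | succ k ih =>
      refine ⟨ih.2.1, ih.2.2, ?_⟩
      show 0 ≤ x (k + 3)
      rw [hs k]; exact div_nonneg ih.2.1 (hd k).le
  exact ⟨fun n => (h3 n).1, hd, hs⟩

/-- For all `A, B ≥ 0` and `D > 0`, every admissible solution of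
`x_{n+1} = x_{n-1} / (A + B x_n + x_{n-1} + D x_{n-2})` converges to a (not necessarily prime)
period-two solution. This contains the equations (E1), (E3), (E4). -/
theorem result (A B D : ℝ) (hA : 0 ≤ A) (hB : 0 ≤ B) (hD : 0 < D) (x : ℕ → ℝ)
    (hx : IsSol 0 A B D x) :
    ∃ y : ℕ → ℝ, IsSol 0 A B D y ∧ (∀ n, y (n + 2) = y n) ∧
      Tendsto (fun n => x n - y n) atTop (𝓝 0) := by
  obtain ⟨y, hy, h2, h3⟩ := hx.toSol.final hA hB hD (hx.toSol.conv_all hA hB hD)
  refine ⟨y, ⟨hy.nonneg 0, hy.nonneg 1, hy.nonneg 2, fun n => hy.den_pos n, fun n => ?_⟩, h2, h3⟩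
  have := hy.step n
  simpa [Den] using this

end Pool.Agent.Results.MP_548f00_an.AlphaZero
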